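import Pool.Agent.Y564.Mah.Defs

set_option autoImplicit false

namespace Pool.Agent.Y564.Mah

open Filter Topology
open scoped ENNReal

universe u

variable {B : Type u} [CompleteBooleanAlgebra B]

/-- Pairwise disjoint sequences -/
abbrev PD (a : ℕ → B) : Prop := Pairwise (fun i j => Disjoint (a i) (a j))

/-! ### Properties of the continuous outer measure -/

section Outer

variable {m : B → ℝ} (hm : IsContinuousOuterMeasure m)
include hm

theorem m_nonneg (a : B) : 0 ≤ m a := by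
  rw [← hm.bot]
  exact hm.mono _ _ bot_le

theorem m_cont {a : ℕ → B} (ha : Antitone a) (h : ⨅ n, a n = ⊥) :
    Tendsto (fun n => m (a n)) atTop (𝓝 0) :=
  hm.cont a ha (by rw [← h]; exact isGLB_iInf)

theorem m_partial (c : ℕ → B) (N : ℕ) :
    m (⨆ k ∈ Finset.range N, c k) ≤ ∑ k ∈ Finset.range N, m (c k) := by
  induction N with
  | zero => simp [hm.bot]
  | succ N ih =>
    rw [Finset.range_add_one, Finset.sum_insert Finset.notMem_range_self, Finset.iSup_insert]
    exact (hm.sub_add _ _).trans (by gcongr)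

omit hm in
/-- the complements of the finite suprema decrease to `⊥` -/
theorem inf_sdiff_eq_bot (c : ℕ → B) :
    ⨅ N, ((⨆ k, c k) \ ⨆ k ∈ Finset.range N, c k) = ⊥ := by
  rw [eq_bot_iff]
  have h1 : ⨅ N, ((⨆ k, c k) \ ⨆ k ∈ Finset.range N, c k) ≤ ⨆ k, c k :=
    (iInf_le _ 0).trans sdiff_le
  have h2 : ⨅ N, ((⨆ k, c k) \ ⨆ k ∈ Finset.range N, c k) ≤ (⨆ k, c k)ᶜ := by
    rw [compl_iSup]
    refine le_iInf fun k => ?_
    refine (iInf_le _ (k + 1)).trans ?_
    rw [sdiff_eq]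
    refine inf_le_right.trans ?_
    apply compl_le_compl
    exact le_iSup₂_of_le k (Finset.mem_range.2 (Nat.lt_succ_self k)) le_rfl
  calc _ ≤ (⨆ k, c k) ⊓ (⨆ k, c k)ᶜ := le_inf h1 h2
    _ ≤ ⊥ := by rw [inf_compl_self]

omit hm in
theorem anti_sdiff (c : ℕ → B) (s : B) : Antitone fun N => s \ ⨆ k ∈ Finset.range N, c k := by
  intro N M h
  apply sdiff_le_sdiff_left
  exact biSup_mono fun k hk => Finset.mem_range.2 ((Finset.mem_range.1 hk).trans_le h)

theorem m_sigma {c : ℕ → B} {r : ℝ} (h : ∀ N, ∑ k ∈ Finset.range N, m (c k) ≤ r) :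
    m (⨆ k, c k) ≤ r := by
  have h1 := m_cont hm (anti_sdiff c (⨆ k, c k)) (inf_sdiff_eq_bot c)
  have h2 : ∀ N, m (⨆ k, c k) ≤ r + m ((⨆ k, c k) \ ⨆ k ∈ Finset.range N, c k) := by
    intro N
    have h3 : (⨆ k, c k) ≤ (⨆ k ∈ Finset.range N, c k) ⊔
        ((⨆ k, c k) \ ⨆ k ∈ Finset.range N, c k) := le_sup_sdiff
    refine (hm.mono _ _ h3).trans ((hm.sub_add _ _).trans ?_)
    gcongr
    exact (m_partial hm c N).trans (h N)
  have h4 : Tendsto (fun N => r + m ((⨆ k, c k) \ ⨆ k ∈ Finset.range N, c k)) atTop (𝓝 (r + 0)) :=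
    tendsto_const_nhds.add h1
  rw [add_zero] at h4
  exact ge_of_tendsto' h4 h2

end Outer

/-! ### Countably additive functions on a complete subalgebra -/

/-- `κ` is countably additive, finite and strictly positive on `C`. -/
structure MeasOn (C : Set B) (κ : B → ℝ≥0∞) : Prop where
  compl_mem : ∀ a ∈ C, aᶜ ∈ C
  bot_mem : ⊥ ∈ C
  iSup_mem : ∀ a : ℕ → B, (∀ n, a n ∈ C) → (⨆ n, a n) ∈ C
  sup_mem : ∀ a ∈ C, ∀ b ∈ C, a ⊔ b ∈ C
  sdiff_mem : ∀ a ∈ C, ∀ b ∈ C, a \ b ∈ C
  fin : ∀ a ∈ C, κ a ≠ ∞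
  pos : ∀ a ∈ C, a ≠ ⊥ → κ a ≠ 0
  add : ∀ a : ℕ → B, (∀ n, a n ∈ C) → PD a → κ (⨆ n, a n) = ∑' n, κ (a n)

namespace MeasOn

variable {C : Set B} {κ : B → ℝ≥0∞} (h : MeasOn C κ)
include h

theorem bot : κ ⊥ = 0 := by
  by_contra h1
  have h2 := h.add (fun _ => ⊥) (fun _ => h.bot_mem) (fun i j _ => disjoint_bot_left)
  rw [iSup_const, ENNReal.tsum_const_eq_top_of_ne_zero h1] at h2
  exact h.fin ⊥ h.bot_mem h2

theorem union {a b : B} (ha : a ∈ C) (hb : b ∈ C) (hab : Disjoint a b) :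
    κ (a ⊔ b) = κ a + κ b := by
  let x : ℕ → B := fun n => if n = 0 then a else if n = 1 then b else ⊥
  have hx : ∀ n, x n ∈ C := by
    intro n
    simp only [x]
    split_ifs
    · exact ha
    · exact hb
    · exact h.bot_mem
  have hPD : PD x := by
    intro i j hij
    simp only [x]
    split_ifs with h1 h2 h2 h3 h3 h4 <;> first
      | exact disjoint_bot_left
      | exact disjoint_bot_right
      | exact hab
      | exact hab.symm
      | (exfalso; omega)
  have h1 := h.add x hx hPD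
  have h2 : ⨆ n, x n = a ⊔ b := by
    apply le_antisymm
    · apply iSup_le
      intro n
      simp only [x]
      split_ifs
      · exact le_sup_left
      · exact le_sup_right
      · exact bot_le
    · apply sup_le
      · exact le_iSup_of_le 0 (by simp [x])
      · exact le_iSup_of_le 1 (by simp [x])
  have h3 : ∑' n, κ (x n) = ∑ n ∈ Finset.range 2, κ (x n) := by
    apply tsum_eq_sum
    intro n hn
    have : x n = ⊥ := by
      simp only [Finset.mem_range, not_lt] at hn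
      simp only [x]
      rw [if_neg (by omega), if_neg (by omega)]
    rw [this, h.bot]
  rw [← h2, h1, h3, Finset.sum_range_succ, Finset.sum_range_one]
  simp [x]

theorem mono {a b : B} (ha : a ∈ C) (hb : b ∈ C) (hab : a ≤ b) : κ a ≤ κ b := by
  have h1 : a ⊔ b \ a = b := sup_sdiff_cancel_right hab
  have h2 := h.union ha (h.sdiff_mem b hb a ha) disjoint_sdiff_self_right
  rw [h1] at h2
  rw [h2]
  exact le_self_add

theorem disjointed_mem {a : ℕ → B} (ha : ∀ n, a n ∈ C) (n : ℕ) : disjointed a n ∈ C := by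
  have key : ∀ n, partialSups a n ∈ C := by
    intro n
    induction n with
    | zero => simpa using ha 0
    | succ n ih =>
      rw [partialSups_add_one]
      exact h.sup_mem _ ih _ (ha (n + 1))
  cases n with
  | zero => simpa using ha 0
  | succ n =>
    rw [← Order.succ_eq_add_one, disjointed_succ _ (not_isMax n)]
    exact h.sdiff_mem _ (ha _) _ (key n)

theorem sub {a : ℕ → B} (ha : ∀ n, a n ∈ C) : κ (⨆ n, a n) ≤ ∑' n, κ (a n) := by
  have h1 := h.add (disjointed a) (h.disjointed_mem ha) (disjoint_disjointed a)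
  rw [iSup_disjointed] at h1
  rw [h1]
  exact ENNReal.tsum_le_tsum fun n => h.mono (h.disjointed_mem ha n) (ha n) (disjointed_le a n)

/-- absolute continuity of the outer measure -/
theorem abs_cont {m : B → ℝ} (hm : IsContinuousOuterMeasure m) {ε : ℝ} (hε : 0 < ε) :
    ∃ δ : ℝ≥0∞, 0 < δ ∧ ∀ a ∈ C, κ a < δ → m a < ε := by
  by_contra hcon
  push Not at hcon
  have h1 : ∀ n : ℕ, ∃ a ∈ C, κ a < (2 : ℝ≥0∞)⁻¹ ^ n ∧ ε ≤ m a := by
    intro n
    obtain ⟨a, ha, ha1, ha2⟩ := hcon ((2 : ℝ≥0∞)⁻¹ ^ n) (by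
      apply ENNReal.pow_pos
      simp)
    exact ⟨a, ha, ha1, ha2⟩
  choose a haC ha1 ha2 using h1
  set c : ℕ → B := fun n => ⨆ k, a (n + k) with hc
  have hcC : ∀ n, c n ∈ C := fun n => h.iSup_mem _ fun k => haC _
  have hcanti : Antitone c := by
    intro n n' hn
    apply iSup_le
    intro k
    obtain ⟨d, rfl⟩ := Nat.exists_eq_add_of_le hn
    exact le_iSup_of_le (d + k) (by rw [Nat.add_assoc])
  have hκ : ∀ n, κ (c n) ≤ (2 : ℝ≥0∞)⁻¹ ^ n * 2 := by
    intro n
    refine (h.sub fun k => haC (n + k)).trans ?_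
    have h2 : ∑' k, (2 : ℝ≥0∞)⁻¹ ^ (n + k) = (2 : ℝ≥0∞)⁻¹ ^ n * 2 := by
      simp_rw [pow_add]
      rw [ENNReal.tsum_mul_left, ENNReal.tsum_geometric, ENNReal.one_sub_inv_two, inv_inv]
    rw [← h2]
    exact ENNReal.tsum_le_tsum fun k => (ha1 (n + k)).le
  have hinfC : (⨅ n, c n) ∈ C := by
    have h2 : ⨅ n, c n = (⨆ n, (c n)ᶜ)ᶜ := by
      rw [compl_iSup]
      simp
    rw [h2]
    exact h.compl_mem _ (h.iSup_mem _ fun n => h.compl_mem _ (hcC n))
  have hinf : ⨅ n, c n = ⊥ := by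
    by_contra hne
    apply h.pos _ hinfC hne
    have h2 : Tendsto (fun n : ℕ => (2 : ℝ≥0∞)⁻¹ ^ n * 2) atTop (𝓝 (0 * 2)) := by
      apply ENNReal.Tendsto.mul_const
      · apply ENNReal.tendsto_pow_atTop_nhds_zero_of_lt_one
        simp
      · right
        simp
    rw [zero_mul] at h2
    apply le_antisymm _ bot_le
    apply ge_of_tendsto' h2
    intro n
    exact (h.mono hinfC (hcC n) (iInf_le _ n)).trans (hκ n)
  have h3 := m_cont hm hcanti hinf
  have h4 : ∀ n, ε ≤ m (c n) := fun n =>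
    (ha2 n).trans (hm.mono _ _ (le_iSup_of_le 0 (by simp)))
  exact absurd (ge_of_tendsto' h3 h4) (not_le.2 hε)

end MeasOn

end Pool.Agent.Y564.Mah
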