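import Mathlib

/-!
# Measures and continuous outer measures on Boolean algebras: definitions
-/

set_option autoImplicit false

namespace Pool.Agent.Y564.Mah

universe u

/-- A measure on a Boolean algebra: a nonnegative real valued, strictly positive and countably
additive map. -/
structure IsMeasure {A : Type u} [BooleanAlgebra A] (μ : A → ℝ) : Prop where
  nonneg : ∀ a, 0 ≤ μ a
  pos : ∀ a, a ≠ ⊥ → 0 < μ a
  sigma_add : ∀ (a : ℕ → A) (s : A), Pairwise (fun i j => Disjoint (a i) (a j)) →
    IsLUB (Set.range a) s → HasSum (fun n => μ (a n)) (μ s)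

/-- A continuous outer measure on a Boolean algebra. -/
structure IsContinuousOuterMeasure {A : Type u} [BooleanAlgebra A] (m : A → ℝ) : Prop where
  bot : m ⊥ = 0
  pos : ∀ a, a ≠ ⊥ → 0 < m a
  mono : ∀ a b, a ≤ b → m a ≤ m b
  sub_add : ∀ a b, m (a ⊔ b) ≤ m a + m b
  cont : ∀ a : ℕ → A, Antitone a → IsGLB (Set.range a) ⊥ →
    Filter.Tendsto (fun n => m (a n)) Filter.atTop (nhds 0)

/-- A complete subalgebra of a complete Boolean algebra: a subalgebra which is closed under all
suprema and infima taken in the big algebra. -/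
def IsCompleteSubalgebra {B : Type u} [CompleteBooleanAlgebra B] (L : BooleanSubalgebra B) :
    Prop :=
  ∀ S : Set B, S ⊆ L → sSup S ∈ L ∧ sInf S ∈ L

/-- `L` is a countably generated complete subalgebra: it is the smallest complete subalgebra which
contains some countable set. -/
def IsCountablyGenerated {B : Type u} [CompleteBooleanAlgebra B] (L : BooleanSubalgebra B) :
    Prop :=
  IsCompleteSubalgebra L ∧ ∃ S : Set B, S.Countable ∧ S ⊆ L ∧
    ∀ L' : BooleanSubalgebra B, IsCompleteSubalgebra L' → S ⊆ L' → L ≤ L'

end Pool.Agent.Y564.Mah
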