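import Pool.Agent.Y564.Mah.Core

set_option autoImplicit false

namespace Pool.Agent.Y564.Mah

open Filter Topology
open scoped ENNReal

universe u

variable {B : Type u} [CompleteBooleanAlgebra B]

/-- `κ` is bounded by `1`, additive on `F`, and at least `δ` where `m` is at least `ε`. -/
structure Good (m : B → ℝ) (ε : ℝ) (δ : ℝ≥0∞) (F : Set B) (κ : B → ℝ≥0∞) : Prop where
  le_one : ∀ a, κ a ≤ 1
  add : ∀ a ∈ F, ∀ b ∈ F, Disjoint a b → κ (a ⊔ b) = κ a + κ b
  ge : ∀ a ∈ F, ε ≤ m a → δ ≤ κ a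

theorem uniform {m : B → ℝ} (hm : IsContinuousOuterMeasure m)
    (H : ∀ S : Set B, S.Countable → ∃ (C : Set B) (κ : B → ℝ≥0∞), S ⊆ C ∧ MeasOn C κ)
    {ε : ℝ} (hε : 0 < ε) :
    ∃ δ : ℝ≥0∞, 0 < δ ∧ ∀ F : Finset B, ∃ κ : B → ℝ≥0∞, Good m ε δ (F : Set B) κ := by
  classical
  by_cases hB : (⊤ : B) = ⊥
  · have hall : ∀ a : B, a = ⊥ := fun a => le_bot_iff.1 (hB ▸ le_top)
    refine ⟨1, one_pos, fun F => ⟨fun _ => 0, ⟨fun _ => zero_le_one, fun _ _ _ _ _ => by simp,
      fun a _ ha => ?_⟩⟩⟩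
    rw [hall a, hm.bot] at ha
    exact absurd ha (not_le.2 hε)
  by_contra hcon
  push Not at hcon
  have hpos : ∀ n : ℕ, (0 : ℝ≥0∞) < ((n : ℝ≥0∞) + 1)⁻¹ := by
    intro n
    rw [ENNReal.inv_pos]
    exact ENNReal.add_ne_top.2 ⟨ENNReal.natCast_ne_top n, ENNReal.one_ne_top⟩
  choose F hF using fun n : ℕ => hcon (((n : ℝ≥0∞) + 1)⁻¹) (hpos n)
  obtain ⟨C, κ, hSC, hκ⟩ := H (⋃ n, (F n : Set B)) (Set.countable_iUnion fun n =>
    (F n).countable_toSet)
  have htop : (⊤ : B) ∈ C := by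
    have := hκ.compl_mem _ hκ.bot_mem
    rwa [compl_bot] at this
  have h0 : κ ⊤ ≠ 0 := hκ.pos _ htop hB
  have h1 : κ ⊤ ≠ ∞ := hκ.fin _ htop
  obtain ⟨δ, hδ, hδ'⟩ := hκ.abs_cont hm hε
  have h2 : δ / κ ⊤ ≠ 0 := (ENNReal.div_pos hδ.ne' h1).ne'
  obtain ⟨n, hn⟩ := ENNReal.exists_inv_nat_lt h2
  apply hF n (fun a => if a ∈ C then κ a / κ ⊤ else 0)
  have hFC : ∀ a ∈ (F n : Set B), a ∈ C := fun a ha => hSC (Set.mem_iUnion.2 ⟨n, ha⟩)
  refine ⟨?_, ?_, ?_⟩
  · intro a
    split_ifs with ha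
    · rw [ENNReal.div_le_iff h0 h1, one_mul]
      exact hκ.mono ha htop le_top
    · exact zero_le_one
  · intro a ha b hb hab
    have ha' := hFC a ha
    have hb' := hFC b hb
    simp only [if_pos ha', if_pos hb', if_pos (hκ.sup_mem _ ha' _ hb')]
    rw [hκ.union ha' hb' hab, ENNReal.add_div]
  · intro a ha hma
    have ha' := hFC a ha
    simp only [if_pos ha']
    have h3 : δ ≤ κ a := by
      by_contra h4
      exact absurd (hδ' a ha' (not_le.1 h4)) (not_lt.2 hma)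
    calc ((n : ℝ≥0∞) + 1)⁻¹ ≤ ((n : ℝ≥0∞))⁻¹ := ENNReal.inv_le_inv.2 le_self_add
      _ ≤ δ / κ ⊤ := hn.le
      _ ≤ κ a / κ ⊤ := ENNReal.div_le_div_right h3 _

theorem compactness {m : B → ℝ} {ε : ℝ} {δ : ℝ≥0∞}
    (h : ∀ F : Finset B, ∃ κ : B → ℝ≥0∞, Good m ε δ (F : Set B) κ) :
    ∃ κ : B → ℝ≥0∞, Good m ε δ Set.univ κ := by
  classical
  choose κ hκ using h
  let 𝒰 : Ultrafilter (Finset B) := Ultrafilter.of atTop
  have h𝒰 : (𝒰 : Filter (Finset B)) ≤ atTop := Ultrafilter.of_le _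
  have hlim : ∀ a : B, ∃ r : ℝ≥0∞, Tendsto (fun F => κ F a) 𝒰 (𝓝 r) := by
    intro a
    exact ⟨_, (𝒰.map (fun F => κ F a)).le_nhds_lim⟩
  choose r hr using hlim
  have hev : ∀ a : B, ∀ᶠ F in (𝒰 : Filter (Finset B)), a ∈ F := by
    intro a
    apply h𝒰
    filter_upwards [eventually_ge_atTop ({a} : Finset B)] with F hF
    exact hF (Finset.mem_singleton_self a)
  refine ⟨r, ?_, ?_, ?_⟩
  · intro a
    exact le_of_tendsto' (hr a) fun F => (hκ F).le_one a
  · intro a _ b _ hab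
    apply tendsto_nhds_unique_of_eventuallyEq (hr (a ⊔ b)) ((hr a).add (hr b))
    filter_upwards [hev a, hev b] with F ha hb
    exact (hκ F).add a ha b hb hab
  · intro a _ ha
    apply ge_of_tendsto (hr a)
    filter_upwards [hev a] with F haF
    exact (hκ F).ge a haF ha

/-- finitely additive, strictly positive and bounded -/
structure FA (κ : B → ℝ≥0∞) : Prop where
  le_one : ∀ a, κ a ≤ 1
  add : ∀ a b, Disjoint a b → κ (a ⊔ b) = κ a + κ b
  pos : ∀ a, a ≠ ⊥ → κ a ≠ 0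

theorem exists_FA {m : B → ℝ} (hm : IsContinuousOuterMeasure m)
    (H : ∀ S : Set B, S.Countable → ∃ (C : Set B) (κ : B → ℝ≥0∞), S ⊆ C ∧ MeasOn C κ) :
    ∃ κ : B → ℝ≥0∞, FA κ := by
  have h1 : ∀ n : ℕ, ∃ δ : ℝ≥0∞, 0 < δ ∧ ∃ κ : B → ℝ≥0∞,
      Good m (1 / ((n : ℝ) + 1)) δ Set.univ κ := by
    intro n
    obtain ⟨δ, hδ, h2⟩ := uniform hm H (ε := 1 / ((n : ℝ) + 1)) (by positivity)
    exact ⟨δ, hδ, compactness h2⟩
  choose δ hδ κ hκ using h1
  refine ⟨fun a => ∑' n, (2 : ℝ≥0∞)⁻¹ ^ (n + 1) * κ n a, ?_, ?_, ?_⟩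
  · intro a
    calc ∑' n, (2 : ℝ≥0∞)⁻¹ ^ (n + 1) * κ n a ≤ ∑' n, (2 : ℝ≥0∞)⁻¹ ^ (n + 1) := by
          apply ENNReal.tsum_le_tsum
          intro n
          calc (2 : ℝ≥0∞)⁻¹ ^ (n + 1) * κ n a ≤ (2 : ℝ≥0∞)⁻¹ ^ (n + 1) * 1 := by
                gcongr
                exact (hκ n).le_one a
            _ = _ := mul_one _
      _ = 1 := by
          simp_rw [pow_succ]
          rw [ENNReal.tsum_mul_right, ENNReal.tsum_geometric, ENNReal.one_sub_inv_two, inv_inv]
          exact ENNReal.mul_inv_cancel two_ne_zero ENNReal.ofNat_ne_top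
  · intro a b hab
    rw [← ENNReal.tsum_add]
    congr 1
    ext n
    rw [(hκ n).add a trivial b trivial hab, mul_add]
  · intro a ha
    have h2 := hm.pos a ha
    obtain ⟨n, hn⟩ := exists_nat_one_div_lt h2
    have h3 := (hκ n).ge a trivial hn.le
    intro h4
    rw [ENNReal.tsum_eq_zero] at h4
    have h5 := h4 n
    rw [mul_eq_zero] at h5
    rcases h5 with h5 | h5
    · exact absurd h5 (by simp)
    · rw [h5] at h3
      exact absurd h3 (not_le.2 (hδ n))

/-! ### From finitely additive to countably additive -/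

namespace FA

variable {κ : B → ℝ≥0∞} (h : FA κ)
include h

theorem ne_top (a : B) : κ a ≠ ∞ := ((h.le_one a).trans_lt ENNReal.one_lt_top).ne

theorem bot : κ ⊥ = 0 := by
  have h1 := h.add ⊥ ⊥ disjoint_bot_left
  rw [bot_sup_eq] at h1
  have h2 : κ ⊥ + 0 = κ ⊥ + κ ⊥ := by rw [add_zero]; exact h1
  exact ((ENNReal.add_right_inj (h.ne_top ⊥)).1 h2).symm

theorem mono {a b : B} (hab : a ≤ b) : κ a ≤ κ b := by
  have h1 : a ⊔ b \ a = b := sup_sdiff_cancel_right hab
  have h2 := h.add a (b \ a) disjoint_sdiff_self_right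
  rw [h1] at h2
  rw [h2]
  exact le_self_add

theorem fin_sum {x : ℕ → B} (hx : PD x) (N : ℕ) :
    κ (⨆ k ∈ Finset.range N, x k) = ∑ k ∈ Finset.range N, κ (x k) := by
  induction N with
  | zero => simp [h.bot]
  | succ N ih =>
    rw [Finset.range_add_one, Finset.sum_insert Finset.notMem_range_self, Finset.iSup_insert,
      h.add, ih]
    rw [disjoint_iSup₂_iff]
    intro k hk
    exact hx (Finset.mem_range.1 hk).ne'

theorem tsum_le {x : ℕ → B} (hx : PD x) : ∑' n, κ (x n) ≤ κ (⨆ n, x n) := by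
  apply ENNReal.tsum_le_of_sum_range_le
  intro N
  rw [← h.fin_sum hx]
  exact h.mono (iSup₂_le fun k _ => le_iSup x k)

end FA

/-- Countable partitions of `a`. -/
def Part (a : B) : Set (ℕ → B) := {x | PD x ∧ ⨆ n, x n = a}

/-- The countably additive part of `κ`. -/
noncomputable def lam (κ : B → ℝ≥0∞) (a : B) : ℝ≥0∞ := ⨅ x ∈ Part a, ∑' n, κ (x n)

theorem lam_le {κ : B → ℝ≥0∞} (h : FA κ) (a : B) : lam κ a ≤ κ a := by
  let x : ℕ → B := fun n => if n = 0 then a else ⊥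
  have hx : x ∈ Part a := by
    constructor
    · intro i j hij
      simp only [x]
      split_ifs with h1 h2 h2 <;> first
        | exact disjoint_bot_left
        | exact disjoint_bot_right
        | (exfalso; omega)
    · apply le_antisymm
      · apply iSup_le
        intro n
        simp only [x]
        split_ifs
        · exact le_rfl
        · exact bot_le
      · exact le_iSup_of_le 0 (by simp [x])
  refine (iInf₂_le x hx).trans ?_
  refine (h.tsum_le hx.1).trans ?_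
  rw [hx.2]

theorem lam_sigma {κ : B → ℝ≥0∞} (h : FA κ) {a : ℕ → B} (ha : PD a) :
    lam κ (⨆ n, a n) = ∑' n, lam κ (a n) := by
  apply le_antisymm
  · apply ENNReal.le_of_forall_pos_le_add
    intro ε hε hfin
    obtain ⟨ε', hε', hsum⟩ := ENNReal.exists_pos_sum_of_countable
      (ENNReal.coe_pos.2 hε).ne' ℕ
    have h1 : ∀ n, ∃ x ∈ Part (a n), ∑' k, κ (x k) ≤ lam κ (a n) + ε' n := by
      intro n
      have h2 : lam κ (a n) < lam κ (a n) + ε' n := by
        apply ENNReal.lt_add_right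
        · exact ((lam_le h _).trans_lt (h.ne_top _).lt_top).ne
        · exact (ENNReal.coe_pos.2 (hε' n)).ne'
      have h3 : ∃ x ∈ Part (a n), ∑' k, κ (x k) < lam κ (a n) + ε' n := by
        by_contra hcon
        push Not at hcon
        exact absurd h2 (not_lt.2 (le_iInf₂ hcon))
      obtain ⟨x, hx, hx'⟩ := h3
      exact ⟨x, hx, hx'.le⟩
    choose x hx hx' using h1
    let y : ℕ → B := fun k => x (Nat.unpair k).1 (Nat.unpair k).2
    have hy : y ∈ Part (⨆ n, a n) := by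
      constructor
      · intro i j hij
        by_cases h2 : (Nat.unpair i).1 = (Nat.unpair j).1
        · have h3 : (Nat.unpair i).2 ≠ (Nat.unpair j).2 := by
            intro h4
            apply hij
            rw [← Nat.pair_unpair i, ← Nat.pair_unpair j, h2, h4]
          simp only [y, h2]
          exact (hx _).1 h3
        · have h3 : ∀ i, y i ≤ a (Nat.unpair i).1 := by
            intro i
            rw [← (hx (Nat.unpair i).1).2]
            exact le_iSup (x (Nat.unpair i).1) _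
          exact (ha h2).mono (h3 i) (h3 j)
      · apply le_antisymm
        · apply iSup_le
          intro i
          refine le_iSup_of_le (Nat.unpair i).1 ?_
          rw [← (hx (Nat.unpair i).1).2]
          exact le_iSup (x (Nat.unpair i).1) _
        · apply iSup_le
          intro n
          rw [← (hx n).2]
          apply iSup_le
          intro k
          refine le_iSup_of_le (Nat.pair n k) ?_
          simp [y]
    refine (iInf₂_le y hy).trans ?_
    have h2 : ∑' k, κ (y k) = ∑' n, ∑' k, κ (x n k) := by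
      rw [← ENNReal.tsum_prod]
      exact Nat.pairEquiv.symm.tsum_eq (fun p : ℕ × ℕ => κ (x p.1 p.2))
    rw [h2]
    calc ∑' n, ∑' k, κ (x n k) ≤ ∑' n, (lam κ (a n) + ε' n) := ENNReal.tsum_le_tsum hx'
      _ = ∑' n, lam κ (a n) + ∑' n, (ε' n : ℝ≥0∞) := ENNReal.tsum_add
      _ ≤ _ := by gcongr
  · apply le_iInf₂
    intro x hx
    calc ∑' n, lam κ (a n) ≤ ∑' n, ∑' k, κ (x k ⊓ a n) := by
          apply ENNReal.tsum_le_tsum
          intro n
          apply iInf₂_le
          constructor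
          · intro i j hij
            exact (hx.1 hij).mono inf_le_left inf_le_left
          · rw [← iSup_inf_eq, hx.2]
            exact inf_eq_right.2 (le_iSup a n)
      _ = ∑' k, ∑' n, κ (x k ⊓ a n) := ENNReal.tsum_comm
      _ ≤ ∑' k, κ (x k) := by
          apply ENNReal.tsum_le_tsum
          intro k
          have h1 : PD (fun n => x k ⊓ a n) := fun i j hij => (ha hij).mono inf_le_right inf_le_right
          refine (h.tsum_le h1).trans (h.mono ?_)
          exact iSup_le fun n => inf_le_left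

theorem lam_pos {m : B → ℝ} (hm : IsContinuousOuterMeasure m) {κ : B → ℝ≥0∞} (h : FA κ)
    {a : B} (ha : a ≠ ⊥) : lam κ a ≠ 0 := by
  intro h0
  have hma := hm.pos a ha
  have h1 : ∀ k : ℕ, ∃ x ∈ Part a, ∑' n, κ (x n) < ((k : ℝ≥0∞) + 1)⁻¹ := by
    intro k
    by_contra hcon
    push Not at hcon
    have h2 : ((k : ℝ≥0∞) + 1)⁻¹ ≤ lam κ a := le_iInf₂ hcon
    rw [h0] at h2
    have h3 : (0 : ℝ≥0∞) < ((k : ℝ≥0∞) + 1)⁻¹ := by
      rw [ENNReal.inv_pos]
      exact ENNReal.add_ne_top.2 ⟨ENNReal.natCast_ne_top k, ENNReal.one_ne_top⟩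
    exact absurd h2 (not_le.2 h3)
  choose x hx hx' using h1
  have h2 : ∀ k : ℕ, ∃ N : ℕ, m (a \ ⨆ n ∈ Finset.range N, x k n) < m a * (1 / 2) ^ (k + 2) := by
    intro k
    have h3 := m_cont hm (anti_sdiff (x k) (⨆ n, x k n)) (inf_sdiff_eq_bot (x k))
    rw [(hx k).2] at h3
    have h4 : 0 < m a * (1 / 2) ^ (k + 2) := by positivity
    exact ((h3.eventually (gt_mem_nhds h4))).exists
  choose N hN using h2
  set b : B := a ⊓ ⨅ k, ⨆ n ∈ Finset.range (N k), x k n with hb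
  have hab : a \ b = ⨆ k, (a \ ⨆ n ∈ Finset.range (N k), x k n) := by
    rw [hb, sdiff_inf_self_left, sdiff_eq, compl_iInf, inf_iSup_eq]
    simp only [sdiff_eq]
  have hmab : m (a \ b) ≤ m a / 2 := by
    rw [hab]
    apply m_sigma hm
    intro M
    calc ∑ k ∈ Finset.range M, m (a \ ⨆ n ∈ Finset.range (N k), x k n)
        ≤ ∑ k ∈ Finset.range M, m a * (1 / 2) ^ (k + 2) :=
          Finset.sum_le_sum fun k _ => (hN k).le
      _ = m a / 4 * ∑ k ∈ Finset.range M, (1 / 2 : ℝ) ^ k := by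
          rw [Finset.mul_sum]
          apply Finset.sum_congr rfl
          intro k _
          ring
      _ ≤ m a / 4 * 2 := by
          gcongr
          have h5 := sum_geometric_two_le M
          exact h5
      _ = m a / 2 := by ring
  have hbne : b ≠ ⊥ := by
    intro h5
    rw [h5, sdiff_bot] at hmab
    linarith
  apply h.pos b hbne
  have h6 : ∀ k : ℕ, κ b ≤ ((k : ℝ≥0∞) + 1)⁻¹ := by
    intro k
    calc κ b ≤ κ (⨆ n ∈ Finset.range (N k), x k n) := h.mono (inf_le_right.trans (iInf_le _ k))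
      _ = ∑ n ∈ Finset.range (N k), κ (x k n) := h.fin_sum (hx k).1 _
      _ ≤ ∑' n, κ (x k n) := ENNReal.sum_le_tsum _
      _ ≤ _ := (hx' k).le
  by_contra h7
  obtain ⟨n, hn⟩ := ENNReal.exists_inv_nat_lt h7
  have h8 := (h6 n).trans (ENNReal.inv_le_inv.2 (le_self_add : (n : ℝ≥0∞) ≤ n + 1))
  exact absurd h8 (not_le.2 hn)

theorem main {m : B → ℝ} (hm : IsContinuousOuterMeasure m)
    (H : ∀ S : Set B, S.Countable → ∃ (C : Set B) (κ : B → ℝ≥0∞), S ⊆ C ∧ MeasOn C κ) :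
    ∃ μ : B → ℝ, IsMeasure μ := by
  obtain ⟨κ, h⟩ := exists_FA hm H
  have hfin : ∀ a, lam κ a ≠ ∞ := fun a => ((lam_le h a).trans_lt (h.ne_top a).lt_top).ne
  refine ⟨fun a => (lam κ a).toReal, fun a => ENNReal.toReal_nonneg, fun a ha => ?_, ?_⟩
  · exact ENNReal.toReal_pos (lam_pos hm h ha) (hfin a)
  · intro a s hPD hs
    have h1 : s = ⨆ n, a n := hs.unique isLUB_iSup
    have h2 : ∑' n, lam κ (a n) ≠ ∞ := by
      rw [← lam_sigma h hPD]
      exact hfin _
    rw [h1, lam_sigma h hPD, ENNReal.tsum_toReal_eq (fun n => hfin (a n))]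
    exact ENNReal.hasSum_toReal h2

end Pool.Agent.Y564.Mah
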