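import Pool.Agent.Y564.Mah.Fin

set_option autoImplicit false

namespace Pool.Agent.Y564.Mah

open Filter Topology
open scoped ENNReal

universe u

variable {B : Type u} [CompleteBooleanAlgebra B]

/-- Extension of a real valued function on a subalgebra. -/
noncomputable def ext (L : BooleanSubalgebra B) (μ : L → ℝ) (a : B) : ℝ≥0∞ :=
  open Classical in if h : a ∈ L then ENNReal.ofReal (μ ⟨a, h⟩) else 0

theorem ext_eq {L : BooleanSubalgebra B} (μ : L → ℝ) {a : B} (h : a ∈ L) :
    ext L μ a = ENNReal.ofReal (μ ⟨a, h⟩) := by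
  simp only [ext, dif_pos h]

theorem measOn_of_measure {L : BooleanSubalgebra B} (hL : IsCompleteSubalgebra L) {μ : L → ℝ}
    (hμ : IsMeasure μ) : MeasOn (L : Set B) (ext L μ) where
  compl_mem a ha := L.compl_mem ha
  bot_mem := L.bot_mem
  iSup_mem a ha := (hL (Set.range a) (by rintro _ ⟨n, rfl⟩; exact ha n)).1
  sup_mem a ha b hb := L.sup_mem ha hb
  sdiff_mem a ha b hb := L.sdiff_mem ha hb
  fin a ha := by
    rw [ext_eq μ ha]
    exact ENNReal.ofReal_ne_top
  pos a ha hne := by
    rw [ext_eq μ ha]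
    have h1 : (⟨a, ha⟩ : L) ≠ ⊥ := fun h => hne (congrArg Subtype.val h)
    have h2 := hμ.pos _ h1
    simpa using h2
  add a ha hPD := by
    have hs : (⨆ n, a n) ∈ L := (hL (Set.range a) (by rintro _ ⟨n, rfl⟩; exact ha n)).1
    let a' : ℕ → L := fun n => ⟨a n, ha n⟩
    have hPD' : Pairwise (fun i j => Disjoint (a' i) (a' j)) := by
      intro i j hij
      have h1 : Disjoint (a i) (a j) := hPD hij
      rw [disjoint_iff] at h1 ⊢
      exact Subtype.ext h1
    have hlub : IsLUB (Set.range a') ⟨⨆ n, a n, hs⟩ := by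
      constructor
      · rintro _ ⟨n, rfl⟩
        exact le_iSup a n
      · intro b hb
        change (⨆ n, a n) ≤ b.1
        apply iSup_le
        intro n
        exact hb ⟨n, rfl⟩
    have h1 := hμ.sigma_add a' _ hPD' hlub
    rw [ext_eq μ hs, ← h1.tsum_eq, ENNReal.ofReal_tsum_of_nonneg (fun n => hμ.nonneg _) h1.summable]
    congr 1
    ext n
    rw [ext_eq μ (ha n)]

/-- The complete subalgebra generated by a set. -/
def genL (S : Set B) : BooleanSubalgebra B :=
  sInf {L | IsCompleteSubalgebra L ∧ S ⊆ L}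

theorem mem_genL {S : Set B} {a : B} :
    a ∈ genL S ↔ ∀ L : BooleanSubalgebra B, IsCompleteSubalgebra L → S ⊆ L → a ∈ L := by
  rw [genL, BooleanSubalgebra.mem_sInf]
  simp only [Set.mem_ofPred_eq, and_imp]

theorem genL_complete (S : Set B) : IsCompleteSubalgebra (genL S) := by
  intro T hT
  constructor
  · rw [mem_genL]
    intro L hL hS
    exact (hL T fun a ha => mem_genL.1 (hT ha) L hL hS).1
  · rw [mem_genL]
    intro L hL hS
    exact (hL T fun a ha => mem_genL.1 (hT ha) L hL hS).2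

theorem subset_genL (S : Set B) : S ⊆ genL S := fun _ ha => mem_genL.2 fun _ _ hS => hS ha

theorem genL_cg {S : Set B} (hS : S.Countable) : IsCountablyGenerated (genL S) :=
  ⟨genL_complete S, S, hS, subset_genL S, fun L' hL' h _ ha => mem_genL.1 ha L' hL' h⟩

theorem maharam
    (hsub : ∀ L : BooleanSubalgebra B, IsCountablyGenerated L → ∃ μ : L → ℝ, IsMeasure μ)
    (hm : ∃ m : B → ℝ, IsContinuousOuterMeasure m) : ∃ μ : B → ℝ, IsMeasure μ := by
  obtain ⟨m, hm⟩ := hm
  apply main hm
  intro S hS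
  obtain ⟨μ, hμ⟩ := hsub (genL S) (genL_cg hS)
  exact ⟨_, _, subset_genL S, measOn_of_measure (genL_complete S) hμ⟩

end Pool.Agent.Y564.Mah
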